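import Pool.Agent.R509.ETH.Fin

/-!
# MP_d5a1e1_nt: covering numbers of a basis of order `h` with bounded representation function

`rep A h n` is the number `r_{A,h}(n)` of multisets of `h` elements of `A` with sum `n`, `cnt A N` the number of the
elements of `A` in `[1, N]`, and `cov A N i` the number of the intervals `[j 2 ^ i, (j + 1) 2 ^ i)` that meet
`A ∩ [1, N]`. If `A` is an asymptotic basis of order `h` then `2 ^ i (cov A N i) ^ h ≥ c N` at every scale
`2 ^ i ≤ N`. We show that for bounded `r_{A,h}` this lower bound cannot be sharp, up to constants, at many scales.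

The large sieve inequality for the representation function (`Pool.Agent.TH314.ETH.moment_sep`) and the growth of bases
(`thickAll_of_basis`, `thickAll_of_growth`) are from the starting files.
-/

set_option autoImplicit false

namespace Pool.Agent.Results.MP_d5a1e1_nt.CoveringNumbers

open Finset Filter

/-- `r_{A,h}(n)`: the number of multisets of `h` elements of `A` with sum `n`. -/
noncomputable def rep (A : Set ℕ) (h n : ℕ) : ℕ :=
  {s : Multiset ℕ | Multiset.card s = h ∧ (∀ a ∈ s, a ∈ A) ∧ s.sum = n}.ncard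

/-- `A` is an asymptotic basis of order `h`. -/
def IsBasis (A : Set ℕ) (h : ℕ) : Prop :=
  ∃ n₀ : ℕ, ∀ n, n₀ ≤ n → ∃ s : Multiset ℕ, Multiset.card s = h ∧ (∀ a ∈ s, a ∈ A) ∧ s.sum = n

/-- The number of the elements of `A` in `[1, N]`. -/
noncomputable def cnt (A : Set ℕ) (N : ℕ) : ℕ := (A ∩ Set.Icc 1 N).ncard

/-- The number of the intervals `[j 2 ^ i, (j + 1) 2 ^ i)` that contain an element of `A ∩ [1, N]`. -/
noncomputable def cov (A : Set ℕ) (N i : ℕ) : ℕ := {j : ℕ | ∃ a ∈ A ∩ Set.Icc 1 N, a / 2 ^ i = j}.ncard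

/-- At least `δ log N` of the scales `2 ^ i ≤ N` satisfy `2 ^ i (cov B N i) ^ h ≤ T N`. -/
def Regular (h : ℕ) (B : Set ℕ) (T δ : ℝ) (N : ℕ) : Prop :=
  δ * Real.log N ≤ {i : ℕ | 2 ^ i ≤ N ∧ (2 : ℝ) ^ i * (cov B N i : ℝ) ^ h ≤ T * N}.ncard

/-- In base `g ^ h` the digits of the elements of `B` are restricted to `g` values, which may depend arbitrarily on the
place and on all the higher digits: each interval `[j (g ^ h) ^ (i + 1), (j + 1) (g ^ h) ^ (i + 1))` contains at most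
`g` intervals `[l (g ^ h) ^ i, (l + 1) (g ^ h) ^ i)` that meet `B`. -/
def Tree (h g : ℕ) (B : Set ℕ) : Prop := ∀ i j : ℕ, {l : ℕ | l / g ^ h = j ∧ ∃ b ∈ B, b / (g ^ h) ^ i = l}.ncard ≤ g

lemma cov_eq (A : Set ℕ) (N i : ℕ) : cov A N i = Pool.Agent.R509.ET.box (Pool.Agent.TH314.ET.seg A N) i := by
  unfold cov Pool.Agent.R509.ET.box
  rw [← Set.ncard_coe_finset]
  congr 1
  ext j
  rw [mem_coe, mem_image]
  constructor
  · rintro ⟨a, ⟨ha, hax⟩, h⟩
    exact ⟨a, Pool.Agent.TH314.ET.mem_seg.2 ⟨Set.mem_Icc.1 hax, ha⟩, h⟩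
  · rintro ⟨a, ha, h⟩
    rw [Pool.Agent.TH314.ET.mem_seg] at ha
    exact ⟨a, ⟨ha.2, Set.mem_Icc.2 ha.1⟩, h⟩

lemma cnt_eq (A : Set ℕ) (N : ℕ) : cnt A N = (Pool.Agent.TH314.ET.seg A N).card := Pool.Agent.TH314.ET.seg_card A N

lemma reg_iff (h : ℕ) (B : Set ℕ) (T δ : ℝ) (x : ℕ) (hx : 1 ≤ x) (H : Regular h B T δ x) : Pool.Agent.R509.ETH.Reg h B T δ x := by
  classical
  unfold Regular at H
  unfold Pool.Agent.R509.ETH.Reg
  refine H.trans (le_of_eq ?_)
  rw [← Set.ncard_coe_finset]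
  congr 2
  ext i
  rw [mem_coe, mem_filter, mem_range, ← cov_eq]
  have h1 : 2 ^ i ≤ x ↔ i < Nat.log 2 x + 1 := by
    rw [Nat.lt_succ_iff, Nat.le_log_iff_pow_le (by norm_num) (by omega)]
  rw [← h1]
  rfl

/-- Let `h ≥ 2`.

1. **Inequality.** If `r_{A,h}(n) ≤ R` for all `n ≤ h N` then
`∑ i, A(N) ^ h / (2 ^ i (cov A N i) ^ h) ≤ 16 (6 h) ^ h (h + 4) R`, the sum over all scales `2 ^ i ≤ N`, for every set
`A`, where `A(N) = cnt A N`.

2. If `A` is an asymptotic basis of order `h` and `r_{A,h}` is bounded then `∑ i, N / (2 ^ i (cov A N i) ^ h) ≤ C` for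
all `N`. So for every `T` and `N` there are at most `C T` scales `2 ^ i ≤ N` with `2 ^ i (cov A N i) ^ h ≤ T N`.

3. If `B ⊆ A` has `B(N) ^ h ≥ c N` and is regular (`Regular h B T δ N`) for the same infinitely many `N` then
`r_{A,h}(n) ≥ c' log n` for infinitely many `n`, for some `c' > 0`.

4. The same conclusion for every asymptotic basis `A` of order `h` which is a union of finitely many sets `B j`, all of
which are regular for the same infinitely many `N`.

5. In particular, `r_{A,h}(n) ≥ c' log n` for infinitely many `n` for every asymptotic basis `A` of order `h` which is a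
union of finitely many sets `B j` whose digits in base `(g j) ^ h` (bases may be different) are restricted to `g j`
values, which may depend arbitrarily on the place and all the higher digits. -/
theorem result (h : ℕ) (hh : 2 ≤ h) :
    (∀ (A : Set ℕ) (N R : ℕ), 1 ≤ N → (∀ n ≤ h * N, rep A h n ≤ R) →
      ∑ i ∈ range (Nat.log 2 N + 1), (cnt A N : ℝ) ^ h / ((2 : ℝ) ^ i * (cov A N i : ℝ) ^ h) ≤
        16 * (6 * (h : ℝ)) ^ h * (h + 4) * R) ∧
    (∀ (A : Set ℕ) (K : ℕ), IsBasis A h → (∀ n, rep A h n ≤ K) →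
      ∃ C : ℝ, ∀ N : ℕ, 1 ≤ N →
        ∑ i ∈ range (Nat.log 2 N + 1), (N : ℝ) / ((2 : ℝ) ^ i * (cov A N i : ℝ) ^ h) ≤ C) ∧
    (∀ (A B : Set ℕ) (c T δ : ℝ), B ⊆ A → 0 < c → 0 < T → 0 < δ →
      (∃ᶠ N : ℕ in atTop, c * N ≤ (cnt B N : ℝ) ^ h ∧ Regular h B T δ N) →
      ∃ c' : ℝ, 0 < c' ∧ ∃ᶠ n : ℕ in atTop, c' * Real.log n ≤ rep A h n) ∧
    (∀ (A : Set ℕ) (k : ℕ) (B : Fin k → Set ℕ) (T δ : ℝ), IsBasis A h → A = ⋃ j, B j → 0 < T → 0 < δ →
      (∃ᶠ N : ℕ in atTop, ∀ j, Regular h (B j) T δ N) →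
      ∃ c' : ℝ, 0 < c' ∧ ∃ᶠ n : ℕ in atTop, c' * Real.log n ≤ rep A h n) ∧
    (∀ (A : Set ℕ) (k : ℕ) (B : Fin k → Set ℕ) (g : Fin k → ℕ), IsBasis A h → A = ⋃ j, B j →
      (∀ j, 2 ≤ g j ∧ Tree h (g j) (B j)) →
      ∃ c' : ℝ, 0 < c' ∧ ∃ᶠ n : ℕ in atTop, c' * Real.log n ≤ rep A h n) := by
  refine ⟨?_, ?_, ?_, ?_, ?_⟩
  · intro A N R hN hR
    have h1 := Pool.Agent.R509.ETH.part1 h hh A N R hN hR
    simp only [← cov_eq, ← cnt_eq] at h1
    exact h1
  · intro A K hA hK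
    obtain ⟨C, hC⟩ := Pool.Agent.R509.ETH.part2 h hh A (Or.inl hA) K hK
    refine ⟨C, fun x hx => ?_⟩
    have h1 := hC x hx
    simp only [← cov_eq] at h1
    exact h1
  · intro A B c T δ hBA hc hT hδ H
    apply Pool.Agent.R509.ETH.part3 h hh A B hBA c T δ hc hT hδ
    refine (H.and_eventually (eventually_ge_atTop 1)).mono fun x hx => ?_
    rw [← cnt_eq]
    exact ⟨hx.1.1, reg_iff h B T δ x hx.2 hx.1.2⟩
  · intro A k B T δ hA hAB hT hδ H
    apply Pool.Agent.R509.ETH.part4 h hh A (Or.inl hA) k B hAB T δ hT hδ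
    exact (H.and_eventually (eventually_ge_atTop 1)).mono fun x hx j => reg_iff h (B j) T δ x hx.2 (hx.1 j)
  · intro A k B g hA hAB H
    exact Pool.Agent.R509.ETH.part5 h hh A (Or.inl hA) k B g (fun j => (H j).1) (fun j => (H j).2) hAB

end Pool.Agent.Results.MP_d5a1e1_nt.CoveringNumbers
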