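import Pool.Agent.R447.CubeGrowth

/-!
# MP_d5a1e1_nt: bases, `k`-fold sumsets and the number of digits used in base `q`

`rep A h n` is the number `r_{A,h}(n)` of multisets of `h` elements of `A` with sum `n`.

1. Let `r_{A,h} ≤ K` and `h! K < C(h, ⌊h/2⌋) ^ k` (for `h = 2`: `K < 2 ^ (k - 1)`).  Then, for any
   finite sets of integers `X_1, …, X_k` with at least `m` elements each, `A` contains fewer than
   `2 |X_1| ⋯ |X_k| m ^ (-1 / 2 ^ (k - 1))` elements of `X_1 + ⋯ + X_k`.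
2. Let moreover `A` be an asymptotic basis of order `h`.  Then, for all large `q`, the elements of `A`
   below `q ^ k` use more than `q ^ (1 / h + ε)` different digits in base `q`, where
   `ε = 1 / (h k 2 ^ (k - 1))`.
3. Hence `r_{A,h}` is unbounded for every asymptotic basis `A` of order `h` whose elements use, for
   every `ε > 0` and arbitrarily large `q`, at most `q ^ (1 / h + ε)` different digits in base `q`
   (at least about `q ^ (1 / h)` digits are always used).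
4. If the number formed by any block of consecutive base `b` digits of an element of `A` is again an
   element of `A` (for instance if `A` is given by an arbitrary, possibly infinite, set of forbidden
   digit blocks), and `A` is an asymptotic basis of order `h`, then `r_{A,h}(n) ≥ (log n) ^ β` for
   infinitely many `n`, for every `β < log_2 C(h, ⌊h/2⌋)`.

Method.  A subset of `X_1 × ⋯ × X_k` with so many elements contains the vertices of a nondegenerate
cube `{x_1, y_1} × ⋯ × {x_k, y_k}` (Kővári–Sós–Turán, Erdős).  The `2 ^ k` corresponding elements of `A`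
give `C(h, ⌊h/2⌋) ^ k` ordered representations of one number: choose for every `i` which `⌊h/2⌋` of the
`h` summands use `x_i`.
-/

set_option autoImplicit false

open Filter

namespace Pool.Agent.Results.MP_d5a1e1_nt.KFoldSumsets

/-- `r_{A,h}(n)`: the number of multisets of `h` elements of `A` with sum `n` -/
noncomputable def rep (A : Set ℕ) (h n : ℕ) : ℕ :=
  Set.ncard {s : Multiset ℕ | Multiset.card s = h ∧ (∀ a ∈ s, a ∈ A) ∧ s.sum = n}

/-- `A` is an asymptotic basis of order `h` -/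
def IsBasis (A : Set ℕ) (h : ℕ) : Prop :=
  ∃ n₀ : ℕ, ∀ n : ℕ, n₀ ≤ n →
    ∃ s : Multiset ℕ, Multiset.card s = h ∧ (∀ a ∈ s, a ∈ A) ∧ s.sum = n

/-- the digits in base `q` used by the elements of `A` below `q ^ k` -/
def digits (A : Set ℕ) (q k : ℕ) : Set ℕ := {d | ∃ a ∈ A, a < q ^ k ∧ ∃ i, i < k ∧ a / q ^ i % q = d}

/-- all the digits in base `q` used by the elements of `A` -/
def allDigits (A : Set ℕ) (q : ℕ) : Set ℕ := {d | ∃ a ∈ A, ∃ i, a / q ^ i % q = d}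

/-- the sumset `X_1 + ⋯ + X_k` -/
def sumset {k : ℕ} (X : Fin k → Finset ℤ) : Set ℤ := {s | ∃ x : Fin k → ℤ, (∀ i, x i ∈ X i) ∧ ∑ i, x i = s}

theorem sumset_finite {k : ℕ} (X : Fin k → Finset ℤ) : (sumset X).Finite := by
  classical
  refine (((Fintype.piFinset X).image (fun x => ∑ i, x i)).finite_toSet).subset ?_
  rintro s ⟨x, hx, rfl⟩
  rw [Finset.mem_coe, Finset.mem_image]
  exact ⟨x, by rwa [Fintype.mem_piFinset], rfl⟩

theorem part1 (A : Set ℕ) (h k K : ℕ) (hk : 1 ≤ k) (hK : h.factorial * K < (h.choose (h / 2)) ^ k)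
    (hr : ∀ n, rep A h n ≤ K) (X : Fin k → Finset ℤ) (m : ℕ) (hm : 1 ≤ m)
    (hX : ∀ i, m ≤ (X i).card) :
    ({a : ℕ | a ∈ A ∧ (a : ℤ) ∈ sumset X}.ncard : ℝ) <
      2 * (∏ i, ((X i).card : ℝ)) * (m : ℝ) ^ (-(1 / 2 ^ (k - 1) : ℝ)) := by
  obtain ⟨j, rfl⟩ : ∃ j, k = j + 1 := ⟨k - 1, by omega⟩
  by_contra hcon
  rw [not_lt, Nat.add_sub_cancel] at hcon
  have hfin : {a : ℕ | a ∈ A ∧ (a : ℤ) ∈ sumset X}.Finite := by
    have h1 : ((fun a : ℕ => (a : ℤ)) ⁻¹' (sumset X)).Finite :=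
      (sumset_finite X).preimage (Nat.cast_injective.injOn)
    exact h1.subset (fun a ha => ha.2)
  obtain ⟨N, hN⟩ := hfin.bddAbove
  obtain ⟨n, -, hn⟩ := Pool.Agent.R447.Prod.main A h N X m hm hX (by
    refine hcon.trans ?_
    have h2 : {a : ℕ | a ∈ A ∧ (a : ℤ) ∈ sumset X} ⊆ {a : ℕ | a ∈ A ∧ a ≤ N ∧
        ∃ x : Fin (j + 1) → ℤ, (∀ i, x i ∈ X i) ∧ ∑ i, x i = a} :=
      fun a ha => ⟨ha.1, hN ha, ha.2⟩
    exact_mod_cast Set.ncard_le_ncard h2 ((Set.finite_Iic N).subset (fun a ha => ha.2.1)))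
  have h3 : h.factorial * Pool.Agent.R447.Prod.rep A h n ≤ h.factorial * K :=
    Nat.mul_le_mul_left _ (hr n)
  omega

theorem part2 (A : Set ℕ) (h k K : ℕ) (hh : 2 ≤ h) (hk : 1 ≤ k) (hA : IsBasis A h)
    (hK : h.factorial * K < (h.choose (h / 2)) ^ k) (hr : ∀ n, rep A h n ≤ K) :
    ∀ᶠ q : ℕ in atTop, (q : ℝ) ^ ((1 : ℝ) / h + 1 / (h * k * 2 ^ (k - 1))) <
      ((digits A q k).ncard : ℝ) :=
  Pool.Agent.R447.Prod.digits_bound A h k (by omega) hk hA
    (fun n => lt_of_le_of_lt (Nat.mul_le_mul_left _ (hr n)) hK)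

theorem part3 (A : Set ℕ) (h : ℕ) (hh : 2 ≤ h) (hA : IsBasis A h)
    (hq : ∀ ε : ℝ, 0 < ε → ∃ᶠ q : ℕ in atTop, ((allDigits A q).ncard : ℝ) ≤ (q : ℝ) ^ ((1 : ℝ) / h + ε)) :
    ∀ K : ℕ, ∃ n : ℕ, K < rep A h n := by
  intro K
  by_contra hcon
  push Not at hcon
  have hC2 : 2 ≤ h.choose (h / 2) := by
    have h1 : h ≤ h.choose (h / 2) := by
      have := Nat.choose_le_middle 1 h
      rwa [Nat.choose_one_right] at this
    omega
  obtain ⟨k, hk⟩ : ∃ k, h.factorial * K < (h.choose (h / 2)) ^ (k + 1) :=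
    ⟨h.factorial * K, lt_of_lt_of_le (Nat.lt_pow_self (by omega))
      (Nat.pow_le_pow_right (by omega) (Nat.le_succ _))⟩
  have h1 := part2 A h (k + 1) K hh (by omega) hA hk hcon
  have hh0 : (0 : ℝ) < h := by exact_mod_cast (show 0 < h by omega)
  have h2 := hq (1 / (h * ((k + 1 : ℕ) : ℝ) * 2 ^ (k + 1 - 1))) (by
    have : (0 : ℝ) < ((k + 1 : ℕ) : ℝ) := by exact_mod_cast Nat.succ_pos k
    positivity)
  obtain ⟨q, h3, h4, h5⟩ := (h2.and_eventually (h1.and (eventually_ge_atTop 1))).exists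
  have h6 : (digits A q (k + 1)).ncard ≤ (allDigits A q).ncard := by
    refine Set.ncard_le_ncard ?_ ?_
    · rintro d ⟨a, ha, _, i, _, hd⟩
      exact ⟨a, ha, i, hd⟩
    · refine (Set.finite_Iio q).subset ?_
      rintro d ⟨a, _, i, rfl⟩
      exact Nat.mod_lt _ (by omega)
  have h7 : ((digits A q (k + 1)).ncard : ℝ) ≤ ((allDigits A q).ncard : ℝ) := by exact_mod_cast h6
  linarith

/-- **Bases, `k`-fold sumsets and digits.** -/
theorem result :
    -- 1. sets with bounded representation function and `k`-fold sumsets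
    (∀ (A : Set ℕ) (h k K : ℕ), 1 ≤ k → h.factorial * K < (h.choose (h / 2)) ^ k →
      (∀ n, rep A h n ≤ K) → ∀ (X : Fin k → Finset ℤ) (m : ℕ), 1 ≤ m → (∀ i, m ≤ (X i).card) →
      ({a : ℕ | a ∈ A ∧ (a : ℤ) ∈ sumset X}.ncard : ℝ) <
        2 * (∏ i, ((X i).card : ℝ)) * (m : ℝ) ^ (-(1 / 2 ^ (k - 1) : ℝ))) ∧
    -- 2. the number of digits used by a basis with bounded representation function
    (∀ (A : Set ℕ) (h k K : ℕ), 2 ≤ h → 1 ≤ k → IsBasis A h →
      h.factorial * K < (h.choose (h / 2)) ^ k → (∀ n, rep A h n ≤ K) →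
      ∀ᶠ q : ℕ in atTop, (q : ℝ) ^ ((1 : ℝ) / h + 1 / (h * k * 2 ^ (k - 1))) <
        ((digits A q k).ncard : ℝ)) ∧
    -- 3. bases which use few digits
    (∀ (A : Set ℕ) (h : ℕ), 2 ≤ h → IsBasis A h →
      (∀ ε : ℝ, 0 < ε → ∃ᶠ q : ℕ in atTop,
        ((allDigits A q).ncard : ℝ) ≤ (q : ℝ) ^ ((1 : ℝ) / h + ε)) →
      ∀ K : ℕ, ∃ n : ℕ, K < rep A h n) ∧
    -- 4. bases closed under taking blocks of digits
    (∀ (A : Set ℕ) (h b : ℕ), 2 ≤ h → 2 ≤ b → IsBasis A h →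
      (∀ a ∈ A, ∀ i m : ℕ, a / b ^ i % b ^ m ∈ A) →
      ∀ β : ℝ, 0 < β → β < Real.logb 2 (h.choose (h / 2) : ℝ) →
        ∃ᶠ n : ℕ in atTop, (Real.log n) ^ β ≤ (rep A h n : ℝ)) :=
  ⟨part1, part2, part3, fun A h b hh hb hA hB β hβ0 hβ =>
    Pool.Agent.R447.Prod.block_growth A h b hh hb hA hB β hβ0 hβ⟩

end Pool.Agent.Results.MP_d5a1e1_nt.KFoldSumsets
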