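import Mathlib

/-!
# The Erdős–Turán conjecture for bases with multiplicative symmetries

`r A h n` is the number `r_{A,h}(n)` of multisets of `h` elements of `A` with sum `n`. A positive integer `m` is a multiplier of
`A` if `m a ∈ A` for all `a ∈ A`.

1. If `u_1, …, u_k` are pairwise coprime, every `u_i` is a sum of `h` elements of `A` in a non-trivial way, and the products
   `∏_{j ≠ i} u_j` are multipliers of `A`, then `r_{A,h}(u_1 ⋯ u_k) ≥ k`.
2. The conjecture holds, for every `h ≥ 2`, for all asymptotic bases of order `h` of positive integers such that for infinitely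
   many primes `p` some power of `p` is a multiplier.
3. If a basis `A` of order `h` is closed under multiplication by `d`-th powers and does not contain `0`, or contains no positive
   `d`-th power, then `r_{A,h}(n) ≥ c log n / log log n` for infinitely many `n`, for every `c < 1 / (2 d)`. For instance `A` may be
   the set of all positive values of any family of homogeneous polynomials of degree `d` with integer coefficients.
4. The conjecture holds, for every `h ≥ 2`, for all bases (with or without `0`) closed under multiplication by squares, that is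
   for all sets of integers which are unions of sets `{s k² : k ≥ 1}`.
-/

set_option autoImplicit false

open Finset

namespace Pool.Agent.Results.MP_d5a1e1_nt.MultiplicativeSymmetries

/-- the representations of `n` as a sum of `h` elements of `A`, the order of the summands being disregarded -/
def reps (A : Set ℕ) (h n : ℕ) : Set (Multiset ℕ) := {s | Multiset.card s = h ∧ (∀ a ∈ s, a ∈ A) ∧ s.sum = n}

/-- the unordered representation function `r_{A,h}(n)` -/
noncomputable def r (A : Set ℕ) (h n : ℕ) : ℕ := (reps A h n).ncard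

/-- `A` is an asymptotic basis of order `h` -/
def IsBasis (A : Set ℕ) (h : ℕ) : Prop := ∃ n₀ : ℕ, ∀ n, n₀ ≤ n → (reps A h n).Nonempty

/-- `m` is a multiplier of `A` -/
def Mult (A : Set ℕ) (m : ℕ) : Prop := ∀ a ∈ A, m * a ∈ A

/-- the positive values at integral points of the polynomials of a family -/
def values (F : Set (MvPolynomial ℕ ℤ)) : Set ℕ := {n | 0 < n ∧ ∃ f ∈ F, ∃ x : ℕ → ℤ, MvPolynomial.eval x f = (n : ℤ)}

theorem reps_finite (A : Set ℕ) (h n : ℕ) : (reps A h n).Finite := by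
  refine (Multiset.powerset (h • Multiset.range (n + 1))).toFinset.finite_toSet.subset fun s hs => ?_
  obtain ⟨h1, -, h3⟩ := hs
  rw [Finset.mem_coe, Multiset.mem_toFinset, Multiset.mem_powerset, Multiset.le_iff_count]
  intro a
  by_cases ha : a ∈ s
  · have h4 : a ≤ n := h3 ▸ Multiset.single_le_sum (fun _ _ => Nat.zero_le _) a ha
    rw [Multiset.count_nsmul, Multiset.count_eq_one_of_mem (Multiset.nodup_range _) (Multiset.mem_range.2 (by omega)), mul_one,
      ← h1]
    exact Multiset.count_le_card _ _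
  · rw [Multiset.count_eq_zero_of_notMem ha]
    exact Nat.zero_le _

theorem mult_mul {A : Set ℕ} {m m' : ℕ} (h : Mult A m) (h' : Mult A m') : Mult A (m * m') := fun a ha => by
  rw [mul_assoc]
  exact h _ (h' a ha)

theorem mult_prod {A : Set ℕ} {ι : Type*} (s : Finset ι) (f : ι → ℕ) (h : ∀ i ∈ s, Mult A (f i)) : Mult A (∏ i ∈ s, f i) := by
  classical
  induction s using Finset.induction_on with
  | empty =>
    intro a ha
    simpa using ha
  | insert i s hi ih =>
    rw [Finset.prod_insert hi]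
    exact mult_mul (h i (Finset.mem_insert_self _ _)) (ih fun j hj => h j (Finset.mem_insert_of_mem hj))

theorem mult_pow {A : Set ℕ} {m : ℕ} (h : Mult A m) (e : ℕ) : Mult A (m ^ e) := by
  have := mult_prod (A := A) (Finset.range e) (fun _ => m) fun _ _ => h
  simpa using this

/-- The inequality, for given representations; `c` is an auxiliary positive factor. -/
theorem key {A : Set ℕ} {h : ℕ} {ι : Type*} [DecidableEq ι] (T : Finset ι) (u : ι → ℕ) (c : ℕ) (hc : 0 < c)
    (hcop : ∀ i ∈ T, ∀ j ∈ T, i ≠ j → Nat.Coprime (u i) (u j)) (hu : ∀ i ∈ T, 0 < u i)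
    (s : ι → Multiset ℕ) (hcard : ∀ i ∈ T, Multiset.card (s i) = h) (hsum : ∀ i ∈ T, (s i).sum = u i)
    (hA : ∀ i ∈ T, ∀ a ∈ s i, c * (∏ j ∈ T.erase i, u j) * a ∈ A) (hns : ∀ i ∈ T, u i ∉ s i) :
    T.card ≤ r A h (c * ∏ i ∈ T, u i) := by
  classical
  set φ : ι → Multiset ℕ := fun i => (s i).map fun a => c * (∏ j ∈ T.erase i, u j) * a with hφ
  have hmem : ∀ i ∈ T, φ i ∈ reps A h (c * ∏ i ∈ T, u i) := by
    intro i hi
    refine ⟨by rw [hφ, Multiset.card_map, hcard i hi], ?_, ?_⟩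
    · intro a ha
      obtain ⟨b, hb, rfl⟩ := Multiset.mem_map.1 ha
      exact hA i hi b hb
    · show ((s i).map fun a => c * (∏ j ∈ T.erase i, u j) * a).sum = _
      rw [Multiset.sum_map_mul_left, Multiset.map_id', hsum i hi, mul_assoc, Finset.prod_erase_mul _ _ hi]
  have hinj : Set.InjOn φ T := by
    intro i hi j hj hij
    by_contra hne
    have hi' : i ∈ T := hi
    have hj' : j ∈ T := hj
    -- a non-zero element of `s i`
    obtain ⟨a, ha, ha0⟩ : ∃ a ∈ s i, a ≠ 0 := by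
      by_contra hcon
      push Not at hcon
      have h1 := hsum i hi'
      rw [Multiset.sum_eq_zero hcon] at h1
      exact (hu i hi').ne h1
    have h2 : c * (∏ l ∈ T.erase i, u l) * a ∈ φ j := by
      rw [← hij]
      exact Multiset.mem_map.2 ⟨a, ha, rfl⟩
    obtain ⟨b, -, hb⟩ := Multiset.mem_map.1 h2
    have h3 : u i ∣ ∏ l ∈ T.erase j, u l := Finset.dvd_prod_of_mem u (Finset.mem_erase.2 ⟨hne, hi'⟩)
    have h4 : (∏ l ∈ T.erase j, u l) * b = (∏ l ∈ T.erase i, u l) * a := by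
      rw [mul_assoc, mul_assoc] at hb
      exact Nat.eq_of_mul_eq_mul_left hc hb
    have h5 : u i ∣ (∏ l ∈ T.erase i, u l) * a := h4 ▸ h3.mul_right b
    have h6 : Nat.Coprime (u i) (∏ l ∈ T.erase i, u l) := by
      refine Nat.Coprime.prod_right fun l hl => ?_
      obtain ⟨h7, h8⟩ := Finset.mem_erase.1 hl
      exact hcop i hi' l h8 (Ne.symm h7)
    have h7 : u i ∣ a := h6.dvd_of_dvd_mul_left h5
    have h8 : a ≤ u i := hsum i hi' ▸ Multiset.single_le_sum (fun _ _ => Nat.zero_le _) a ha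
    have h9 : a = u i := le_antisymm h8 (Nat.le_of_dvd (Nat.pos_of_ne_zero ha0) h7)
    exact hns i hi' (h9 ▸ ha)
  have h1 : ((T.image φ : Finset (Multiset ℕ)) : Set (Multiset ℕ)) ⊆ reps A h (c * ∏ i ∈ T, u i) := by
    intro x hx
    obtain ⟨i, hi, rfl⟩ := Finset.mem_image.1 (Finset.mem_coe.1 hx)
    exact hmem i hi
  calc T.card = (T.image φ).card := (Finset.card_image_of_injOn hinj).symm
    _ = ((T.image φ : Finset (Multiset ℕ)) : Set (Multiset ℕ)).ncard := (Set.ncard_coe_finset _).symm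
    _ ≤ _ := Set.ncard_le_ncard h1 (reps_finite _ _ _)

/-- a representation with more than one non-zero summand -/
theorem not_mem_of {A : Set ℕ} {h n : ℕ} (hh : 2 ≤ h) (hA : 0 ∉ A ∨ n ∉ A) {s : Multiset ℕ} (hs : s ∈ reps A h n) : n ∉ s := by
  intro hn
  obtain ⟨h1, h2, h3⟩ := hs
  obtain ⟨t, rfl⟩ := Multiset.exists_cons_of_mem hn
  rw [Multiset.sum_cons] at h3
  rw [Multiset.card_cons] at h1
  have h4 : t.sum = 0 := by omega
  obtain ⟨b, hb⟩ := Multiset.card_pos_iff_exists_mem.1 (show 0 < Multiset.card t by omega)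
  have h5 : b ≤ t.sum := Multiset.single_le_sum (fun _ _ => Nat.zero_le _) b hb
  have h6 : b = 0 := by omega
  rcases hA with hA | hA
  · exact hA (h6 ▸ h2 b (Multiset.mem_cons_of_mem hb))
  · exact hA (h2 n hn)

/-- The inequality for the elements of a basis. -/
theorem basis_ineq {A : Set ℕ} {h n₀ : ℕ} (hh : 2 ≤ h) (hb : ∀ n, n₀ ≤ n → (reps A h n).Nonempty) {ι : Type*} (T : Finset ι)
    (u : ι → ℕ) (hcop : ∀ i ∈ T, ∀ j ∈ T, i ≠ j → Nat.Coprime (u i) (u j)) (hu : ∀ i ∈ T, 0 < u i ∧ n₀ ≤ u i)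
    (hA : ∀ i ∈ T, 0 ∉ A ∨ u i ∉ A) (hm : ∀ i ∈ T, Mult A (u i)) : T.card ≤ r A h (∏ i ∈ T, u i) := by
  classical
  have h1 : ∀ i, ∃ s : Multiset ℕ, i ∈ T → s ∈ reps A h (u i) := by
    intro i
    by_cases hi : i ∈ T
    · obtain ⟨s, hs⟩ := hb (u i) (hu i hi).2
      exact ⟨s, fun _ => hs⟩
    · exact ⟨0, fun h => absurd h hi⟩
  choose s hs using h1
  have h2 := key (A := A) (h := h) T u 1 one_pos hcop (fun i hi => (hu i hi).1) s (fun i hi => (hs i hi).1)
    (fun i hi => (hs i hi).2.2) (fun i hi a ha => by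
      rw [one_mul]
      exact mult_prod _ _ (fun j hj => hm j (Finset.mem_of_mem_erase hj)) a ((hs i hi).2.1 a ha))
    (fun i hi => not_mem_of hh (hA i hi) (hs i hi))
  rwa [one_mul] at h2

/-- infinitely many primes with a power that is a multiplier -/
theorem unbounded_of_primes {A : Set ℕ} {h : ℕ} (hh : 2 ≤ h) (hb : IsBasis A h)
    (hm : {p : ℕ | p.Prime ∧ ∃ e, 1 ≤ e ∧ Mult A (p ^ e) ∧ (0 ∉ A ∨ ∀ j, 1 ≤ j → p ^ (e * j) ∉ A)}.Infinite) (C : ℕ) :
    ∃ n, C < r A h n := by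
  obtain ⟨n₀, hn₀⟩ := hb
  obtain ⟨T, hT, hTc⟩ := hm.exists_subset_card_eq (C + 1)
  have h1 : ∀ p : ℕ, ∃ e, p ∈ T → 1 ≤ e ∧ Mult A (p ^ e) ∧ (0 ∉ A ∨ ∀ j, 1 ≤ j → p ^ (e * j) ∉ A) := by
    intro p
    by_cases hp : p ∈ T
    · obtain ⟨e, he⟩ := (hT hp).2
      exact ⟨e, fun _ => he⟩
    · exact ⟨0, fun h => absurd h hp⟩
  choose e he using h1
  refine ⟨∏ p ∈ T, p ^ (e p * (n₀ + 1)), ?_⟩
  have h2 := basis_ineq (A := A) hh hn₀ T (fun p => p ^ (e p * (n₀ + 1))) (fun p hp q hq hpq =>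
      Nat.Coprime.pow _ _ ((Nat.coprime_primes (hT hp).1 (hT hq).1).2 hpq))
    (fun p hp => ⟨Nat.pow_pos (hT hp).1.pos, by
      have h3 : n₀ + 1 < 2 ^ (n₀ + 1) := Nat.lt_two_pow_self
      have h4 : 2 ^ (n₀ + 1) ≤ p ^ (n₀ + 1) := Nat.pow_le_pow_left (hT hp).1.two_le _
      have h5 : p ^ (n₀ + 1) ≤ p ^ (e p * (n₀ + 1)) :=
        Nat.pow_le_pow_right (hT hp).1.pos (Nat.le_mul_of_pos_left _ (he p hp).1)
      show n₀ ≤ p ^ (e p * (n₀ + 1))
      omega⟩)
    (fun p hp => (he p hp).2.2.imp id fun h => h _ (Nat.succ_pos _))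
    (fun p hp => by
      show Mult A (p ^ (e p * (n₀ + 1)))
      rw [pow_mul]
      exact mult_pow (he p hp).2.1 _)
  omega

/-- an integer `n` with a square that is a sum of two squares, `n = 2 ^ (2 ^ (i + 1)) + 1` -/
theorem fermat_sq (i : ℕ) : ∃ x y : ℕ, 0 < x ∧ 0 < y ∧ x ^ 2 + y ^ 2 = (Nat.fermatNumber (i + 1)) ^ 2 := by
  obtain ⟨q, hq⟩ : ∃ q, (2 ^ 2 ^ i) ^ 2 = q + 1 := ⟨(2 ^ 2 ^ i) ^ 2 - 1, by
    have : 0 < (2 ^ 2 ^ i) ^ 2 := by positivity
    omega⟩
  refine ⟨q, 2 * 2 ^ 2 ^ i, ?_, by positivity, ?_⟩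
  · have h1 : 2 ^ 1 ≤ 2 ^ 2 ^ i := Nat.pow_le_pow_right (by norm_num) (Nat.one_le_two_pow)
    have h2 : (2 ^ 1) ^ 2 ≤ (2 ^ 2 ^ i) ^ 2 := Nat.pow_le_pow_left h1 2
    omega
  · have h1 : Nat.fermatNumber (i + 1) = q + 2 := by
      show 2 ^ 2 ^ (i + 1) + 1 = q + 2
      have h2 : 2 ^ 2 ^ (i + 1) = (2 ^ 2 ^ i) ^ 2 := by rw [pow_succ, pow_mul]
      omega
    rw [h1, mul_pow, hq]
    ring

/-- sets closed under multiplication by squares -/
theorem squares {A : Set ℕ} {h : ℕ} (hh : 2 ≤ h) (hb : IsBasis A h) (hm : ∀ m, 1 ≤ m → Mult A (m ^ 2)) (C : ℕ) :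
    ∃ n, C < r A h n := by
  by_cases h0 : 0 ∈ A ∧ ∃ l, 1 ≤ l ∧ l ^ 2 ∈ A
  · obtain ⟨h0, l, hl, hlA⟩ := h0
    choose x y hx hy hxy using fermat_sq
    have hpos : ∀ i, 0 < Nat.fermatNumber (i + 1) := fun i => Nat.succ_pos _
    refine ⟨l ^ 2 * ∏ i ∈ Finset.range (C + 1), (Nat.fermatNumber (i + 1)) ^ 2, ?_⟩
    have h1 := key (A := A) (h := h) (Finset.range (C + 1)) (fun i => (Nat.fermatNumber (i + 1)) ^ 2) (l ^ 2) (by positivity)
      (fun i _ j _ hij => Nat.Coprime.pow _ _ (Nat.coprime_fermatNumber_fermatNumber (by omega)))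
      (fun i _ => pow_pos (hpos i) 2)
      (fun i => (x i ^ 2) ::ₘ (y i ^ 2) ::ₘ Multiset.replicate (h - 2) 0)
      (fun i _ => by simp; omega)
      (fun i _ => by simp [hxy])
      (fun i _ a ha => by
        have h2 : ∀ z : ℕ, 1 ≤ z → l ^ 2 * (∏ j ∈ (Finset.range (C + 1)).erase i, (Nat.fermatNumber (j + 1)) ^ 2) * z ^ 2 ∈ A := by
          intro z hz
          have h3 := hm ((∏ j ∈ (Finset.range (C + 1)).erase i, Nat.fermatNumber (j + 1)) * z)
            (Nat.mul_pos (Finset.prod_pos fun j _ => hpos j) hz) (l ^ 2) hlA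
          rw [mul_pow, ← Finset.prod_pow] at h3
          convert h3 using 1
          ring
        rcases Multiset.mem_cons.1 ha with rfl | ha
        · exact h2 _ (hx i)
        rcases Multiset.mem_cons.1 ha with rfl | ha
        · exact h2 _ (hy i)
        · rw [Multiset.eq_of_mem_replicate ha, mul_zero]
          exact h0)
      (fun i _ => by
        intro hcon
        have hx2 : 0 < x i ^ 2 := pow_pos (hx i) 2
        have hy2 : 0 < y i ^ 2 := pow_pos (hy i) 2
        have h3 := hxy i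
        rcases Multiset.mem_cons.1 hcon with h4 | h4
        · omega
        rcases Multiset.mem_cons.1 h4 with h4 | h4
        · omega
        · have := Multiset.eq_of_mem_replicate h4
          omega)
    rw [Finset.card_range] at h1
    omega
  · have hinf : {p : ℕ | p.Prime ∧ ∃ e, 1 ≤ e ∧ Mult A (p ^ e) ∧ (0 ∉ A ∨ ∀ j, 1 ≤ j → p ^ (e * j) ∉ A)}.Infinite := by
      refine Nat.infinite_setOfPred_prime.mono fun p hp' => ?_
      have hp : p.Prime := hp'
      refine ⟨hp, 2, by norm_num, hm p hp.one_le, ?_⟩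
      by_cases h1 : 0 ∈ A
      · right
        intro j hj hcon
        refine h0 ⟨h1, p ^ j, Nat.one_le_pow _ _ hp.pos, ?_⟩
        rw [← pow_mul, mul_comm]
        exact hcon
      · exact Or.inl h1
    exact unbounded_of_primes hh hb hinf C

/-- growth for sets closed under multiplication by `d`-th powers -/
theorem growth {A : Set ℕ} {h d : ℕ} (hh : 2 ≤ h) (hb : IsBasis A h) (hd : 1 ≤ d) (hm : ∀ m, 1 ≤ m → Mult A (m ^ d))
    (h0 : 0 ∉ A ∨ ∀ l, 1 ≤ l → l ^ d ∉ A) (c : ℝ) (hc : 0 < c) (hc' : c < 1 / (2 * d)) (N : ℕ) :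
    ∃ n, N ≤ n ∧ c * Real.log n / Real.log (Real.log n) < r A h n := by
  classical
  obtain ⟨n₀, hn₀⟩ := hb
  obtain ⟨q, hqN, hq⟩ := Nat.exists_infinite_primes (N + n₀ + 17)
  have hd0 : (0 : ℝ) < 2 * d := by
    have : (1 : ℝ) ≤ d := by exact_mod_cast hd
    linarith
  set κ : ℝ := c * (2 * d) with hκ
  have hκ1 : κ < 1 := by
    rw [hκ]
    rwa [lt_div_iff₀ hd0] at hc'
  have hl2 : 0 < Real.log 2 := Real.log_pos (by norm_num)
  -- large `x`
  obtain ⟨x, hxq, hx⟩ : ∃ x : ℕ, q ≤ x ∧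
      Real.log ((x : ℝ) + 1) + (n₀ + 1) * Real.log x < (1 - κ) * Real.log 2 * x := by
    have h1 : 0 < (1 - κ) * Real.log 2 / (2 * (n₀ + 3)) := by
      have : 0 < 1 - κ := by linarith
      positivity
    have h2 := (Real.isLittleO_log_id_atTop.def h1)
    have h3 := (tendsto_natCast_atTop_atTop (R := ℝ)).eventually h2
    obtain ⟨x, hx, hx2⟩ := (h3.and (Filter.eventually_ge_atTop (q + 2))).exists
    refine ⟨x, by omega, ?_⟩
    have hx0 : (2 : ℝ) ≤ x := by exact_mod_cast (show 2 ≤ x by omega)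
    have hlx : 0 ≤ Real.log x := Real.log_nonneg (by linarith)
    rw [Real.norm_of_nonneg hlx] at hx
    have hx3 : ‖(id (x : ℝ))‖ = x := by rw [id, Real.norm_of_nonneg (by linarith)]
    rw [hx3] at hx
    have h4 : Real.log ((x : ℝ) + 1) ≤ 2 * Real.log x := by
      have h5 : Real.log ((x : ℝ) + 1) ≤ Real.log ((x : ℝ) ^ 2) := Real.log_le_log (by linarith) (by nlinarith)
      rwa [Real.log_pow, Nat.cast_ofNat] at h5
    have h5 : (n₀ + 3 : ℝ) * Real.log x ≤ (1 - κ) * Real.log 2 * x / 2 := by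
      have h6 : (0 : ℝ) < n₀ + 3 := by positivity
      calc (n₀ + 3 : ℝ) * Real.log x ≤ (n₀ + 3) * ((1 - κ) * Real.log 2 / (2 * (n₀ + 3)) * x) :=
            mul_le_mul_of_nonneg_left hx h6.le
        _ = (1 - κ) * Real.log 2 * x / 2 := by
            field_simp
    have h6 : 0 < (1 - κ) * Real.log 2 * x := by
      have : 0 < 1 - κ := by linarith
      positivity
    nlinarith
  set T : Finset ℕ := (Finset.range (x + 1)).filter fun p => p.Prime ∧ n₀ < p with hT
  have hTp : ∀ p ∈ T, p.Prime ∧ n₀ < p := fun p hp => (Finset.mem_filter.1 hp).2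
  set t : ℕ := ∏ p ∈ T, p ^ d with ht
  have hqT : q ∈ T := Finset.mem_filter.2 ⟨Finset.mem_range.2 (by omega), hq, by omega⟩
  have hr : T.card ≤ r A h t := by
    refine basis_ineq (A := A) hh hn₀ T (fun p => p ^ d) (fun p hp q hq hpq =>
      Nat.Coprime.pow _ _ ((Nat.coprime_primes (hTp p hp).1 (hTp q hq).1).2 hpq)) (fun p hp => ?_) (fun p hp => ?_)
      (fun p hp => hm p (hTp p hp).1.one_le)
    · have h1 : p ≤ p ^ d := Nat.le_self_pow (by omega) p
      have h2 := (hTp p hp).2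
      exact ⟨Nat.pow_pos (hTp p hp).1.pos, by
        show n₀ ≤ p ^ d
        omega⟩
    · exact h0.imp id fun h => h p (hTp p hp).1.one_le
  have hqt : q ≤ t := by
    have h1 : q ^ d ∣ t := Finset.dvd_prod_of_mem (fun p => p ^ d) hqT
    have h2 : 0 < t := Finset.prod_pos fun p hp => Nat.pow_pos (hTp p hp).1.pos
    exact (Nat.le_self_pow (by omega) q).trans (Nat.le_of_dvd h2 h1)
  refine ⟨t, by omega, ?_⟩
  have hx0 : (2 : ℝ) ≤ x := by
    have := hq.two_le
    exact_mod_cast (show 2 ≤ x by omega)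
  have hlx : 0 < Real.log x := Real.log_pos (by linarith)
  -- the number of primes
  have hcard : ((x : ℝ) * Real.log 2 - Real.log (x + 1)) / Real.log x - (n₀ + 1) ≤ T.card := by
    have h1 := Chebyshev.pi_ge x
    have h2 : Nat.primeCounting x ≤ T.card + (n₀ + 1) := by
      have h3 : Nat.primeCounting x = ((Finset.range (x + 1)).filter Nat.Prime).card := by
        rw [Nat.primeCounting, Nat.primeCounting', Nat.count_eq_card_filter_range]
      rw [h3]
      have h4 : (Finset.range (x + 1)).filter Nat.Prime ⊆ T ∪ Finset.range (n₀ + 1) := by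
        intro p hp
        obtain ⟨h5, h6⟩ := Finset.mem_filter.1 hp
        rw [Finset.mem_union]
        by_cases h7 : n₀ < p
        · exact Or.inl (Finset.mem_filter.2 ⟨h5, h6, h7⟩)
        · exact Or.inr (Finset.mem_range.2 (by omega))
      calc _ ≤ (T ∪ Finset.range (n₀ + 1)).card := Finset.card_le_card h4
        _ ≤ T.card + (Finset.range (n₀ + 1)).card := Finset.card_union_le _ _
        _ = _ := by rw [Finset.card_range]
    have h3 : (Nat.primeCounting x : ℝ) ≤ T.card + (n₀ + 1) := by exact_mod_cast h2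
    linarith
  -- the size of `t`
  have htle : t ≤ (4 ^ x) ^ d := by
    have h1 : t = (∏ p ∈ T, p) ^ d := by rw [ht, Finset.prod_pow]
    rw [h1]
    refine Nat.pow_le_pow_left ?_ d
    refine le_trans ?_ (primorial_le_four_pow x)
    unfold primorial
    refine Finset.prod_le_prod_of_subset_of_one_le' ?_ ?_
    · intro p hp
      obtain ⟨h5, h6⟩ := Finset.mem_filter.1 hp
      exact Finset.mem_filter.2 ⟨h5, h6.1⟩
    · intro p hp _
      exact (Finset.mem_filter.1 hp).2.one_le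
  set L : ℝ := Real.log t with hL
  set B : ℝ := 2 * d * Real.log 2 * x with hB
  have ht16 : (16 : ℝ) ≤ t := by exact_mod_cast (show 16 ≤ t by omega)
  have hLe : Real.exp 1 ≤ L := by
    have h1 : Real.log 16 ≤ L := Real.log_le_log (by norm_num) ht16
    have h2 : Real.log 16 = 4 * Real.log 2 := by
      rw [show (16 : ℝ) = 2 ^ 4 by norm_num, Real.log_pow]
      norm_num
    have h3 := Real.log_two_gt_d9
    have h4 := Real.exp_one_lt_d9
    linarith
  have hLB : L ≤ B := by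
    have h1 : L ≤ Real.log (((4 ^ x) ^ d : ℕ) : ℝ) := Real.log_le_log (by linarith) (by exact_mod_cast htle)
    have h2 : Real.log (((4 ^ x) ^ d : ℕ) : ℝ) = B := by
      push_cast
      rw [Real.log_pow, Real.log_pow, show (4 : ℝ) = 2 ^ 2 by norm_num, Real.log_pow, hB]
      push_cast
      ring
    linarith
  have he : (1 : ℝ) < Real.exp 1 := by
    have := Real.exp_one_gt_d9
    linarith
  have hL0 : 0 < L := by linarith
  have hB0 : 0 < B := by linarith
  have hlL : 0 < Real.log L := Real.log_pos (by linarith)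
  have hlB : Real.log x ≤ Real.log B := by
    refine Real.log_le_log (by linarith) ?_
    have h1 : (1 : ℝ) ≤ 2 * d * Real.log 2 := by
      have h2 : (1 : ℝ) ≤ d := by exact_mod_cast hd
      have h3 := Real.log_two_gt_d9
      nlinarith
    rw [hB]
    nlinarith
  have hquot : L / Real.log L ≤ B / Real.log x := by
    have h1 := Real.log_div_self_antitoneOn (Set.mem_Ici.2 hLe) (Set.mem_Ici.2 (hLe.trans hLB)) hLB
    have h2 : Real.log B / B ≤ Real.log L / L := h1
    rw [div_le_div_iff₀ hB0 hL0] at h2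
    have h3 : L / Real.log L ≤ B / Real.log B := by
      rw [div_le_div_iff₀ hlL (hlx.trans_le hlB)]
      linarith
    exact h3.trans (div_le_div_of_nonneg_left hB0.le hlx hlB)
  have h1 : c * L / Real.log L ≤ κ * Real.log 2 * x / Real.log x := by
    have h2 : c * L / Real.log L = c * (L / Real.log L) := by ring
    have h3 : κ * Real.log 2 * x / Real.log x = c * (B / Real.log x) := by
      rw [hκ, hB]
      ring
    rw [h2, h3]
    exact mul_le_mul_of_nonneg_left hquot hc.le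
  have h2 : κ * Real.log 2 * x / Real.log x < ((x : ℝ) * Real.log 2 - Real.log (x + 1)) / Real.log x - (n₀ + 1) := by
    rw [lt_sub_iff_add_lt, div_add' _ _ _ hlx.ne', div_lt_div_iff_of_pos_right hlx]
    linarith
  have h3 : (T.card : ℝ) ≤ r A h t := by exact_mod_cast hr
  linarith

/-- the values of homogeneous polynomials of degree `d` -/
theorem values_mult {F : Set (MvPolynomial ℕ ℤ)} {d : ℕ} (hF : ∀ f ∈ F, f.IsHomogeneous d) (m : ℕ) (hm : 1 ≤ m) :
    Mult (values F) (m ^ d) := by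
  rintro n ⟨hn, f, hf, x, hx⟩
  refine ⟨Nat.mul_pos (Nat.pow_pos hm) hn, f, hf, fun i => (m : ℤ) * x i, ?_⟩
  push_cast
  rw [← hx, MvPolynomial.eval_eq, MvPolynomial.eval_eq, Finset.mul_sum]
  refine Finset.sum_congr rfl fun s hs => ?_
  have h1 : s.sum (fun _ e => e) = d := by
    have h2 := hF f hf (MvPolynomial.mem_support_iff.1 hs)
    rw [Finsupp.weight_apply] at h2
    simpa [Finsupp.sum] using h2
  have h3 : (m : ℤ) ^ d = ∏ i ∈ s.support, (m : ℤ) ^ s i := by
    rw [Finset.prod_pow_eq_pow_sum, ← h1]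
    rfl
  simp only [mul_pow]
  rw [Finset.prod_mul_distrib, h3]
  ring

/-- **The theorem.** See the description at the beginning of the file. -/
theorem result :
    (∀ (A : Set ℕ) (h k : ℕ) (u : Fin k → ℕ) (s : Fin k → Multiset ℕ), (∀ i j, i ≠ j → Nat.Coprime (u i) (u j)) →
      (∀ i, 0 < u i ∧ s i ∈ reps A h (u i) ∧ u i ∉ s i) → (∀ i, Mult A (∏ j ∈ Finset.univ.erase i, u j)) →
      k ≤ r A h (∏ i, u i)) ∧
    (∀ (A : Set ℕ) (h : ℕ), 2 ≤ h → IsBasis A h → 0 ∉ A → {p : ℕ | p.Prime ∧ ∃ e, 1 ≤ e ∧ Mult A (p ^ e)}.Infinite →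
      ∀ C, ∃ n, C < r A h n) ∧
    (∀ (A : Set ℕ) (h d : ℕ), 2 ≤ h → 1 ≤ d → IsBasis A h → (∀ m, 1 ≤ m → Mult A (m ^ d)) →
      (0 ∉ A ∨ ∀ l, 1 ≤ l → l ^ d ∉ A) → ∀ c : ℝ, 0 < c → c < 1 / (2 * d) →
      ∀ N : ℕ, ∃ n, N ≤ n ∧ c * Real.log n / Real.log (Real.log n) < r A h n) ∧
    (∀ (F : Set (MvPolynomial ℕ ℤ)) (h d : ℕ), 2 ≤ h → 1 ≤ d → (∀ f ∈ F, f.IsHomogeneous d) → IsBasis (values F) h →
      ∀ c : ℝ, 0 < c → c < 1 / (2 * d) →
      ∀ N : ℕ, ∃ n, N ≤ n ∧ c * Real.log n / Real.log (Real.log n) < r (values F) h n) ∧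
    (∀ (A : Set ℕ) (h : ℕ), 2 ≤ h → IsBasis A h → (∀ m, 1 ≤ m → Mult A (m ^ 2)) → ∀ C, ∃ n, C < r A h n) := by
  refine ⟨fun A h k u s hcop hs hm => ?_, fun A h hh hb h0 hinf C => ?_, fun A h d hh hd hb hm h0 c hc hc' N =>
    growth hh hb hd hm h0 c hc hc' N, fun F h d hh hd hF hb c hc hc' N => growth hh hb hd (values_mult hF)
      (Or.inl fun h => absurd h.1 (lt_irrefl 0)) c hc hc' N, fun A h hh hb hm C => squares hh hb hm C⟩
  · have h1 := key (A := A) (h := h) Finset.univ u 1 one_pos (fun i _ j _ hij => hcop i j hij) (fun i _ => (hs i).1) s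
      (fun i _ => (hs i).2.1.1) (fun i _ => (hs i).2.1.2.2) (fun i _ a ha => by
        rw [one_mul]
        exact hm i a ((hs i).2.1.2.1 a ha)) (fun i _ => (hs i).2.2)
    rwa [one_mul, Finset.card_univ, Fintype.card_fin] at h1
  · refine unbounded_of_primes hh hb (hinf.mono ?_) C
    rintro p ⟨hp, e, he, hm⟩
    exact ⟨hp, e, he, hm, Or.inl h0⟩

end Pool.Agent.Results.MP_d5a1e1_nt.MultiplicativeSymmetries
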