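import Pool.Agent.R532.EtFin

/-!
# The Erdős–Turán conjecture for bases enumerated by circuits of constant depth

`rep A h n` is the number of unordered representations of `n` as a sum of `h` elements of `A`.
Circuits (`Circuit (Fin m)` of `Pool.Agent.H568R2.Defs`): `m` input bits, NOT gates and AND and OR
gates with any number of inputs, `size` is the number of gates, `nodeDepth` the depth of a node
(inputs have depth 0). Several nodes `out 0, …, out (n - 1)` of one circuit are used as outputs,
`value C out x` is the number with these binary digits, `num x` the number with the binary digits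
`x`. `Nat.nth (· ∈ A) k` is the `k`-th element of `A` in increasing order, `k ≥ 0`.

1. If all the numbers `value C out x`, `x ∈ {0,1}^m`, are elements of `A` below `2 ^ (K m)`, each of
   them for at most `T` inputs `x`, and the circuit has size at most `S ≥ m` and depth `D`, then
   some `N < h 2 ^ (K m)` has at least `exp (c m / (log S) ^ (2 D + 2)) / (2 T)` representations,
   for every `h ≥ 2`, with `c > 0` depending only on `D` and `K`.
2. Let `A` be an asymptotic basis (of any order) or any infinite set whose `k`-th element is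
   `O(k ^ B)` for some `B`. If `rep A h` is bounded for some `h ≥ 2`, then circuits of depth `D` that
   compute the `k`-th element of `A` from the binary digits of `k < 2 ^ m` have at least
   `exp (c m ^ (1 / (2 D + 2)))` gates.
3. If circuits of depth `D` and polynomial size do this for infinitely many `m`, then
   `rep A h n ≥ exp (c log n / (log log n) ^ (2 D + 2))` for infinitely many `n`, for every `h ≥ 2`.

Outline. Under a random restriction all output bits become decision trees of depth
`t = O(log S)` with about `m / t ^ D` variables left (switching lemma). A second random restriction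
leaves `m / t ^ (2 D + 2)` variables up to a constant; the output bits which still depend on two or
more variables depend on so few in total that these can be fixed too. Then each output bit depends
on at most one variable, so complementary inputs have values with a constant sum.
-/

set_option autoImplicit false

namespace Pool.Agent.Results.MP_d5a1e1_nt.ShallowEnumerations

open DomAC0 Filter

/-- The number of unordered representations of `n` as a sum of `h` elements of `A`. -/
noncomputable def rep (A : Set ℕ) (h n : ℕ) : ℕ :=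
  Set.ncard {s : Multiset ℕ | Multiset.card s = h ∧ (∀ a ∈ s, a ∈ A) ∧ s.sum = n}

/-- `A` is an asymptotic basis of order `h`. -/
def IsBasis (A : Set ℕ) (h : ℕ) : Prop :=
  ∃ N, ∀ n, N ≤ n → ∃ s : Multiset ℕ, Multiset.card s = h ∧ (∀ a ∈ s, a ∈ A) ∧ s.sum = n

/-- `A` is an asymptotic basis of some order, or an infinite set whose elements grow at most
polynomially. -/
def Admissible (A : Set ℕ) : Prop :=
  (∃ k, IsBasis A k) ∨ (A.Infinite ∧ ∃ B : ℕ, ∀ k, Nat.nth (· ∈ A) k ≤ B * (k + 1) ^ B)

/-- The number whose binary digits are the values of the nodes `out 0, …, out (n - 1)` of the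
circuit `C` on the input `x`. -/
noncomputable def value {m n : ℕ} (C : Circuit (Fin m)) (out : Fin n → Fin m ⊕ Fin C.size)
    (x : Fin m → Bool) : ℕ :=
  ∑ j : Fin n, if C.nodeVal x (out j) = true then 2 ^ (j : ℕ) else 0

/-- The number with the binary digits `x`. -/
def num {m : ℕ} (x : Fin m → Bool) : ℕ := ∑ i : Fin m, if x i = true then 2 ^ (i : ℕ) else 0

/-- A circuit with `S` gates computes the binary digits of the `k`-th element of `A` from the
binary digits of `k < 2 ^ m`, at nodes of depth at most `D`. -/
def Enumerates (A : Set ℕ) (m D S : ℕ) : Prop :=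
  ∃ (n : ℕ) (C : Circuit (Fin m)) (out : Fin n → Fin m ⊕ Fin C.size),
    C.size = S ∧ (∀ j, C.nodeDepth (out j) ≤ D) ∧
      ∀ x, value C out x = Nat.nth (· ∈ A) (num x)

theorem admissible {A : Set ℕ} (hA : Admissible A) :
    A.Infinite ∧ ∃ B : ℕ, ∀ k, Nat.nth (· ∈ A) k ≤ B * (k + 1) ^ B := by
  rcases hA with ⟨h, n0, hn0⟩ | hA
  · obtain ⟨h1, h2⟩ := Pool.Agent.W167.ET.basis_growth A h n0 hn0
    refine ⟨h1, n0 + 1 + h, fun k => (h2 k).trans ?_⟩
    exact Nat.mul_le_mul (by omega) (Nat.pow_le_pow_right (by omega) (by omega))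
  · exact hA

/-- **The Erdős–Turán conjecture for sets enumerated by circuits of constant depth.** -/
theorem result :
    -- 1. the inequality
    (∀ D K : ℕ, 1 ≤ K → ∃ c : ℝ, 0 < c ∧ ∀ (m n S T h : ℕ) (A : Set ℕ) (C : Circuit (Fin m))
      (out : Fin n → Fin m ⊕ Fin C.size), 1 ≤ m → 2 ≤ S → m ≤ S → C.size ≤ S → 2 ≤ h →
      (∀ j, C.nodeDepth (out j) ≤ D) → (∀ x, value C out x ∈ A) →
      (∀ x, value C out x < 2 ^ (K * m)) →
      (∀ v : ℕ, {x : Fin m → Bool | value C out x = v}.ncard ≤ T) →
      ∃ N, N < h * 2 ^ (K * m) ∧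
        Real.exp (c * m / Real.log S ^ (2 * D + 2)) ≤ 2 * T * rep A h N) ∧
    -- 2. the size of circuits for sets with a bounded representation function
    (∀ (A : Set ℕ) (h R D : ℕ), Admissible A → 2 ≤ h → (∀ n, rep A h n ≤ R) →
      ∃ c : ℝ, 0 < c ∧ ∀ᶠ m : ℕ in atTop, ∀ S : ℕ, Enumerates A m D S →
        Real.exp (c * (m : ℝ) ^ (1 / (2 * D + 2) : ℝ)) ≤ S) ∧
    -- 3. sets enumerated by circuits of constant depth and polynomial size
    (∀ (A : Set ℕ) (h D b : ℕ), Admissible A → 2 ≤ h →
      (∃ᶠ m : ℕ in atTop, ∃ S ≤ m ^ b, Enumerates A m D S) →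
      ∃ c : ℝ, 0 < c ∧ ∃ᶠ n : ℕ in atTop,
        Real.exp (c * Real.log n / Real.log (Real.log n) ^ (2 * D + 2)) ≤ rep A h n) := by
  classical
  refine ⟨?_, ?_, ?_⟩
  · intro D K hK
    obtain ⟨c, hc, H⟩ := Pool.Agent.R532.Et.main D K hK
    refine ⟨c, hc, fun m n S T h A C out h1 h2 h3 h4 h5 h6 h7 h8 h9 => ?_⟩
    refine H m n S T h A C out h1 h2 h3 h4 h5 h6 h7 h8 fun v => ?_
    have h10 := h9 v
    rw [Set.ncard_eq_toFinset_card'] at h10
    refine le_trans (le_of_eq ?_) h10
    congr 1
    ext x
    simp only [Finset.mem_filter, Finset.mem_univ, true_and, Set.mem_toFinset, Set.mem_setOf_eq]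
    rfl
  · intro A h R D hA hh hR
    obtain ⟨hinf, B, hB⟩ := admissible hA
    obtain ⟨c, hc, H⟩ := Pool.Agent.R532.Et.lower A hinf hB hh hR D
    refine ⟨c, hc, ?_⟩
    filter_upwards [H] with m hm
    rintro S ⟨n, C, out, rfl, hD, hC⟩
    exact hm n C out hD hC
  · intro A h D b hA hh hf
    obtain ⟨hinf, B, hB⟩ := admissible hA
    refine Pool.Agent.R532.Et.growth A hinf hB hh D b ?_
    refine hf.mono ?_
    rintro m ⟨S, hS, n, C, out, rfl, hD, hC⟩
    exact ⟨n, C, out, hS, hD, hC⟩

end Pool.Agent.Results.MP_d5a1e1_nt.ShallowEnumerations
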